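import Mathlib
import Pool.Agent.H518R3.RD.Defs

/-! Room GEN block 5, task CORA: separability, nontriviality and finiteness of the corner. -/

set_option autoImplicit false

open scoped ComplexOrder InnerProductSpace Topology
open Filter

noncomputable section

namespace Pool.Agent.H518R3.RD.T_CORA

open H759R2.Kad H710R2.DP H917R2.Tr Pool.Agent.H735G Pool.Agent.H467F

theorem r_CORA : R_CORA := by
  intro H _ _ _ M z K _ _ _ ι N hz hC
  have hadj : ∀ x : K, (ContinuousLinearMap.adjoint ι) (ι x) = x := by
    intro x
    have := congrArg (fun f : K →L[ℂ] K => f x) hC.isom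
    simpa using this
  have hiso : Isometry ι := by
    refine AddMonoidHomClass.isometry_of_norm ι fun x => ?_
    have h1 : ‖ι x‖ ^ 2 = ‖x‖ ^ 2 := by
      have h2 : inner ℂ (ι x) (ι x) = inner ℂ x x := by
        rw [← ContinuousLinearMap.adjoint_inner_left, hadj]
      rw [inner_self_eq_norm_sq_to_K, inner_self_eq_norm_sq_to_K] at h2
      exact_mod_cast h2
    exact (pow_left_inj₀ (norm_nonneg _) (norm_nonneg _) two_ne_zero).1 h1
  refine ⟨?_, ?_, ?_⟩
  · intro hsep
    exact hiso.isEmbedding.separableSpace
  · intro hz0
    by_contra hn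
    rw [not_nontrivial_iff_subsingleton] at hn
    apply hz0
    rw [← hC.rng]
    ext x
    have : (ContinuousLinearMap.adjoint ι) x = 0 := Subsingleton.elim _ _
    simp [this]
  · intro hfin v hv hvv
    have h1 := hC.up v hv
    set w : H →L[ℂ] H := ι ∘L v ∘L (ContinuousLinearMap.adjoint ι) with hw
    have hsw : star w = ι ∘L (star v) ∘L (ContinuousLinearMap.adjoint ι) := by
      rw [hw, ContinuousLinearMap.star_eq_adjoint, ContinuousLinearMap.adjoint_comp,
        ContinuousLinearMap.adjoint_comp, ContinuousLinearMap.adjoint_adjoint,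
        ContinuousLinearMap.star_eq_adjoint]
      rfl
    have hvv' : ∀ y : K, (star v) (v y) = y := by
      intro y
      have := congrArg (fun f : K →L[ℂ] K => f y) hvv
      simpa using this
    have hzw : z * w = w := by
      rw [← hC.rng]
      ext x
      simp only [hw, ContinuousLinearMap.mul_apply, ContinuousLinearMap.comp_apply, hadj]
    have hww : star w * w = z := by
      rw [← hC.rng, hsw, hw]
      ext x
      simp only [ContinuousLinearMap.mul_apply, ContinuousLinearMap.comp_apply, hadj, hvv']
    have h2 := hfin w h1 hzw hww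
    ext y
    have h3 := congrArg (fun f : H →L[ℂ] H => (ContinuousLinearMap.adjoint ι) (f (ι y))) h2
    rw [← hC.rng, hsw, hw] at h3
    simpa only [ContinuousLinearMap.mul_apply, ContinuousLinearMap.comp_apply, hadj,
      ContinuousLinearMap.one_apply] using h3

end Pool.Agent.H518R3.RD.T_CORA
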