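import Mathlib
import Pool.Agent.H518R3.RD.Defs

/-! Room GEN block 5, task NF: below a central projection which is not finite. -/

set_option autoImplicit false

open scoped ComplexOrder InnerProductSpace Topology
open Filter

noncomputable section

namespace Pool.Agent.H518R3.RD.T_NF

open H759R2.Kad H710R2.DP H917R2.Tr Pool.Agent.H735G Pool.Agent.H467F

theorem r_NF (h1 : R_MAX) (h2 : R_AMU) (h3 : R_INF) : R_NF := by
  intro H _ _ _ _ M z hz hfin
  unfold FinZ at hfin
  push Not at hfin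
  obtain ⟨v, hvM, hzv, hvv, hne⟩ := hfin
  obtain ⟨⟨hzs, hzz⟩, hzM, hzc⟩ := hz
  have hsvM : star v ∈ M := star_mem hvM
  have hvz : v * z = v := by rw [← hzc v hvM, hzv]
  have hsvz : star v * z = star v := by
    have := congrArg star hzv
    rwa [star_mul, hzs] at this
  have hzsv : z * star v = star v := by rw [hzc _ hsvM, hsvz]
  set r : H →L[ℂ] H := z - v * star v with hr
  have hqz : v * star v * z = v * star v := by rw [mul_assoc, hsvz]
  have hzq : z * (v * star v) = v * star v := by rw [← mul_assoc, hzv]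
  have hqq : v * star v * (v * star v) = v * star v := by
    rw [mul_assoc, ← mul_assoc (star v), hvv, hzsv]
  have hrs : star r = r := by
    rw [hr, star_sub, star_mul, star_star, hzs]
  have hrr : r * r = r := by
    rw [hr, sub_mul, mul_sub, mul_sub, hzz, hzq, hqz, hqq]
    simp
  have hr0 : r ≠ 0 := by
    rw [hr]
    intro h
    exact hne (sub_eq_zero.1 h).symm
  have hrM : r ∈ M := sub_mem hzM (mul_mem hvM hsvM)
  have hsvr : star v * r = 0 := by
    rw [hr, mul_sub, hsvz, ← mul_assoc, hvv, hzsv, sub_self]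
  have hzr : z * r = r := by
    rw [hr, mul_sub, hzz, hzq]
  have hvpM : ∀ i : ℕ, v ^ i ∈ M := fun i => pow_mem hvM i
  have hkey : ∀ i : ℕ, (star v) ^ i * (v ^ i * r) = r := by
    intro i
    induction i with
    | zero => simp
    | succ n ih =>
      have e1 : (star v) ^ (n + 1) * (v ^ (n + 1) * r)
          = (star v) ^ n * ((star v * v) * (v ^ n * r)) := by
        rw [pow_succ (star v) n, pow_succ' v n]
        simp only [mul_assoc]
      rw [e1, hvv, ← mul_assoc z, hzc _ (hvpM n), mul_assoc, hzr, ih]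
  have hlow : ∀ k j : ℕ, (star v) ^ (k + 1 + j) * (v ^ j * r) = 0 := by
    intro k j
    rw [pow_add, mul_assoc, hkey, pow_succ, mul_assoc, hsvr, mul_zero]
  have hW : ∀ i : ℕ, v ^ i * r ∈ M ∧ z * (v ^ i * r) = v ^ i * r ∧
      star (v ^ i * r) * (v ^ i * r) = r := by
    intro i
    refine ⟨mul_mem (hvpM i) hrM, ?_, ?_⟩
    · rw [← mul_assoc, hzc _ (hvpM i), mul_assoc, hzr]
    · rw [star_mul, hrs, star_pow, mul_assoc, hkey, hrr]
  have hWlt : ∀ i j : ℕ, j < i → star (v ^ i * r) * (v ^ j * r) = 0 := by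
    intro i j hij
    obtain ⟨k, rfl⟩ : ∃ k, i = k + 1 + j := ⟨i - j - 1, by omega⟩
    rw [star_mul, hrs, star_pow, mul_assoc, hlow, mul_zero]
  have hWo : ∀ i j : ℕ, i ≠ j → star (v ^ i * r) * (v ^ j * r) = 0 := by
    intro i j hij
    rcases lt_or_gt_of_ne hij with h | h
    · have := congrArg star (hWlt j i h)
      rwa [star_mul, star_star, star_zero] at this
    · exact hWlt i j h
  have hzCP : IsCP M z := ⟨⟨hzs, hzz⟩, hzM, hzc⟩
  obtain ⟨W', hW1, hW2, hW3⟩ := h1 H M z r (fun i => v ^ i * r) hzCP ⟨hrs, hrr⟩ hr0 hW hWo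
  obtain ⟨g, r', V, hg, hg0, hzg, hAMU⟩ := h2 H M z r W' hzCP ⟨hrs, hrr⟩ hr0 hW1 hW2 hW3
  exact ⟨g, hg, hg0, hzg, h3 H M g r' V hg hAMU⟩

end Pool.Agent.H518R3.RD.T_NF
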